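import Mathlib
import Pool.Agent.H.MP_76bad1_co.E

set_option autoImplicit false
open Finset SimpleGraph Polynomial

namespace Pool.Agent.Results.MP_76bad1_co.Yes

noncomputable def flow {V : Type} [Fintype V] [DecidableEq V] (G : SimpleGraph V)
    [DecidableRel G.Adj] : ℤ[X] :=
  ∑ Z ∈ G.edgeFinset.powerset, (-1) ^ (G.edgeFinset.card - Z.card) *
    X ^ (Z.card + Nat.card (fromEdgeSet (Z : Set (Sym2 V))).ConnectedComponent - Fintype.card V)

open Pool.Agent.H.MP_76bad1_co in
theorem result {V : Type} [Fintype V] [DecidableEq V] (G : SimpleGraph V) [DecidableRel G.Adj]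
    (hc : G.Connected) (hb : ∀ e ∈ G.edgeSet, ¬ G.IsBridge e) (h3 : G.IsRegularOfDegree 3)
    (h6 : 6 ≤ Fintype.card V) (i : ℕ) :
    ((X + 1) * (X + 2) ^ (Fintype.card V / 2 - 2) * (X + 3) ^ 2 : ℤ[X]).coeff i ≤
      |(flow G).coeff i| := by
  have g : C.Cub G := ⟨hc, hb, h3⟩
  have h := E.main g h6 i
  rw [coeff_sub, sub_nonneg] at h
  refine h.trans ?_
  have e : ((B.M G hc).P ∅ G.edgeFinset).coeff i =
      (-1) ^ ((B.M G hc).R - i) * (flow G).coeff i := by
    rw [A.Rk.P, flow, finsetSum_coeff, finsetSum_coeff, mul_sum]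
    refine sum_bij' (fun S _ => G.edgeFinset \ S) (fun S _ => G.edgeFinset \ S) (by simp) (by simp)
      (fun S h => Finset.sdiff_sdiff_eq_self (mem_powerset.1 h))
      (fun S h => Finset.sdiff_sdiff_eq_self (mem_powerset.1 h)) fun S hS => ?_
    have hS := mem_powerset.1 hS
    have a1 := B.wle G hc S
    have a2 := (B.M G hc).h3 S
    have a3 : (B.M G hc).r S = (S ∩ G.edgeFinset).card + 1 - B.w G S := rfl
    have a4 := E.hR g
    have a5 := E.edges g
    have a6 := card_le_card hS
    rw [inter_eq_left.2 hS] at a1 a3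
    rw [B.w_eq, card_sdiff_of_subset hS, empty_union, (B.M G hc).h0,
      show G.edgeFinset.card - (G.edgeFinset.card - S.card) = S.card by omega,
      show G.edgeFinset.card - S.card + B.w G S - Fintype.card V =
        (B.M G hc).R - (B.M G hc).r S by omega]
    have c : ∀ n : ℕ, ((-1) ^ n : ℤ[X]) = Polynomial.C ((-1) ^ n) := by simp
    rw [c, c, coeff_C_mul, coeff_C_mul, coeff_X_pow]
    split_ifs with x
    · rw [show (B.M G hc).R - i = (B.M G hc).r S by omega]
      ring
    · simp
  rw [e]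
  refine (le_abs_self _).trans ?_
  simp [abs_mul]

end Pool.Agent.Results.MP_76bad1_co.Yes
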